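import Mathlib
import Pool.Agent.H654.HA.Asm
import Pool.Agent.H654.HA.Dich
import Pool.Agent.H654.HA.Efs
import Pool.Agent.H654.HA.Cfs
import Pool.Agent.H654.HA.Seq
import Pool.Agent.H654.HA.Sum
import Pool.Agent.H654.HA.Use
import Pool.Agent.H654.HA.Down
import Pool.Agent.H654.HA.ColTwo
import Pool.Agent.H654.HA.GapTwo
import Pool.Agent.H654.HA.SetTwo
import Pool.Agent.H654.HA.RevTwo
import Pool.Agent.H654.HA.PowTwo

/-!
Hindman's theorem for sums of at most two terms over `RCA₀`: for every `k ≥ 2`, the principles for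
`2 k` colours, for `2 k + 1` colours, and for `k` colours with apartness are equivalent.

`L2Structure` (structures for the language of second-order arithmetic, Henkin semantics) and
`IsModelRCA0` are in the library file `Helper617/RM/Defs`; `HT`, `HTApart`, `FSle`, `Apart` and
`IsPow2` are in `Pool/Agent/H654/HA/Asm.lean`.
-/

namespace Pool.Agent.Results.MP_69fea5_lc.ApartnessDoublesColours

open Pool.Agent.Helper617.RM Pool.Agent.H654.HA

universe u

/-- In every model `N` of `RCA₀`, for every `k ≥ 2` the following are equivalent: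
`HT_{2k}^{≤ 2}`; `HT_{2k+1}^{≤ 2}`; `HT_k^{≤ 2}` with apartness. -/
theorem result (N : L2Structure.{u}) (hN : IsModelRCA0 N) (k : ℕ) (hk : 2 ≤ k) :
    [HT N 2 (2 * k), HT N 2 (2 * k + 1), HTApart N 2 k].TFAE :=
  tfae_of down pow2 (rev2 col2 (set2 gap2)) (dich efs cfs) (use seq sum) N hN k hk

end Pool.Agent.Results.MP_69fea5_lc.ApartnessDoublesColours
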