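import Mathlib
import Pool.Agent.H654.HA.AsymFin
import Pool.Agent.H654.HA.PowTwo
import Pool.Agent.H654.HA.DivL
import Pool.Agent.H654.HA.SeqA
import Pool.Agent.H654.HA.Sumfun
import Pool.Agent.H654.HA.Blocks
import Pool.Agent.H654.HA.Php
import Pool.Agent.H654.HA.Key

/-!
An asymmetric form of Hindman's theorem is equivalent to `ACA₀` over `RCA₀`: for every set `A` of
natural numbers there is an infinite set all of whose finite sums are in `A`, or an infinite set all
of whose sums of one or two distinct elements are in the complement of `A`.

`L2Structure` (structures for the language of second-order arithmetic, Henkin semantics),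
`IsModelRCA0` and `ArithComp` are in the library files `Helper617/RM/Defs` and
`Helper617/RM/HLDefs`; `FSle` and `Apart` are in `Pool/Agent/H654/HA/Asm.lean`, `FS` in
`Pool/Agent/H654/HA/FSAll.lean`, `AsymHT`, `AsymHTPair` and `AsymHTCol` in
`Pool/Agent/H654/HA/AsymFin.lean`.
-/

namespace Pool.Agent.Results.MP_69fea5_lc.AsymmetricHindman

open Pool.Agent.Helper617.RM Pool.Agent.H654.HA

universe u

/-- In every model `N` of `RCA₀` the following are equivalent: arithmetical comprehension; the
asymmetric form of Hindman's theorem (for every set `A`: all finite sums of some infinite set are in
`A`, or all sums of at most two terms of some infinite set are outside `A`); the form with two sets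
(for all `D1`, `D2` there is an infinite `X ⊆ D1` with all sums of two elements in `D2`, or an
infinite set whose finite sums all avoid `D1` or all avoid `D2`); the form with finitely many
colours. In the last two, the set with all finite sums satisfies apartness. -/
theorem result (N : L2Structure.{u}) (hN : IsModelRCA0 N) :
    [ArithComp N, AsymHT N, AsymHTPair N, AsymHTCol N].TFAE :=
  asym_tfae pow2 (seqA divl) sumfun (blocks sumfun) php key N hN

end Pool.Agent.Results.MP_69fea5_lc.AsymmetricHindman
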